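import Pool.Agent.Q35.GM.Stm

/-!
GM-22 (INT) of project GM of helper35 (MP_1acd66_nt): sums of functions of the heights and the distance
over pairs of lines, by Riemann sums. Author: helper149.
-/

set_option autoImplicit false

namespace Pool.Agent.Q149.GM

open Pool.Agent.Q35.GM
open Filter Finset

/-- Convergence by approximation. -/
theorem conv_of_approx (f : ℝ → ℝ)
    (h : ∀ ε : ℝ, 0 < ε → ∃ (g : ℝ → ℝ) (c : ℝ), Tendsto g atTop (nhds c) ∧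
      ∀ᶠ T in atTop, |f T - g T| ≤ ε) : ∃ c, Tendsto f atTop (nhds c) := by
  apply cauchySeq_tendsto_of_complete
  rw [Metric.cauchySeq_iff']
  intro ε hε
  obtain ⟨g, c, hg, hfg⟩ := h (ε / 8) (by positivity)
  have h2 : ∀ᶠ T in atTop, |g T - c| < ε / 8 := by
    have := hg (Metric.ball_mem_nhds c (show (0 : ℝ) < ε / 8 by positivity))
    simpa [Real.dist_eq] using this
  obtain ⟨N, hN⟩ := Filter.eventually_atTop.1 (hfg.and h2)
  refine ⟨N, fun n hn => ?_⟩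
  rw [Real.dist_eq]
  have a1 := abs_le.1 (hN n hn).1
  have a2 := abs_lt.1 (hN n hn).2
  have a3 := abs_le.1 (hN N le_rfl).1
  have a4 := abs_lt.1 (hN N le_rfl).2
  rw [abs_lt]
  constructor <;> linarith [a1.1, a1.2, a2.1, a2.2, a3.1, a3.2, a4.1, a4.2]

/-! ## The function `u ^ 2 * Λ (1 / u)` -/

/-- The function `u ^ 2 * Λ (1 / u)`. -/
noncomputable def lm (Λ : ℝ → ℝ) (u : ℝ) : ℝ := u ^ 2 * Λ u⁻¹

theorem lm_nonneg {Λ : ℝ → ℝ} {C : ℝ} (hΛ : IsLam Λ C) (u : ℝ) : 0 ≤ lm Λ u :=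
  mul_nonneg (sq_nonneg _) (hΛ.nonneg _)

theorem lm_le {Λ : ℝ → ℝ} {C : ℝ} (hΛ : IsLam Λ C) {u : ℝ} (hu : 0 < u) (hu1 : u ≤ 1) :
    lm Λ u ≤ C * u := by
  have h1 : 1 ≤ u⁻¹ := (one_le_inv₀ hu).2 hu1
  have h2 := hΛ.le u⁻¹ h1
  calc lm Λ u = u ^ 2 * Λ u⁻¹ := rfl
    _ ≤ u ^ 2 * (C * u⁻¹) := by gcongr
    _ = C * u := by field_simp

/-- The difference at a point and the right end of its cell. -/
theorem lm_diff {Λ : ℝ → ℝ} {C : ℝ} (hC : 1 ≤ C) (hΛ : IsLam Λ C) {k : ℕ} (hk : 1 ≤ k) {u : ℝ}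
    (hu : 0 < u) (hu1 : u ≤ 1) :
    |lm Λ u - lm Λ ((⌈(k : ℝ) ^ 3 * u⌉₊ : ℝ) / (k : ℝ) ^ 3)| ≤ 2 * C / k +
      ∑ j ∈ Ico (k ^ 2) (k ^ 3), (if ⌈(k : ℝ) ^ 3 * u⌉₊ = j + 1 then (1 : ℝ) else 0) *
        (Λ ((k : ℝ) ^ 3 / j) - Λ ((k : ℝ) ^ 3 / ((j : ℝ) + 1))) := by
  have hk0 : (0 : ℝ) < k := by exact_mod_cast hk
  have hk1 : (1 : ℝ) ≤ k := by exact_mod_cast hk
  have hM : (0 : ℝ) < (k : ℝ) ^ 3 := by positivity
  set i : ℕ := ⌈(k : ℝ) ^ 3 * u⌉₊ with hi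
  set a : ℝ := (i : ℝ) / (k : ℝ) ^ 3 with ha
  have hi0 : 0 < i := Nat.ceil_pos.2 (by positivity)
  have hi1 : i ≤ k ^ 3 := by
    rw [hi, Nat.ceil_le]
    push_cast
    nlinarith
  have hi1' : (i : ℝ) ≤ (k : ℝ) ^ 3 := by exact_mod_cast hi1
  have hua : u ≤ a := by
    rw [ha, le_div_iff₀ hM]
    have := Nat.le_ceil ((k : ℝ) ^ 3 * u)
    linarith
  have hau : a < u + 1 / (k : ℝ) ^ 3 := by
    rw [ha, div_lt_iff₀ hM]
    have h := Nat.ceil_lt_add_one (show 0 ≤ (k : ℝ) ^ 3 * u by positivity)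
    have e1 : (u + 1 / (k : ℝ) ^ 3) * (k : ℝ) ^ 3 = (k : ℝ) ^ 3 * u + 1 := by field_simp
    rw [e1]
    exact h
  have ha0 : 0 < a := by linarith
  have ha1 : a ≤ 1 := by
    rw [ha, div_le_one hM]
    exact hi1'
  have hs0 : ∀ j ∈ Ico (k ^ 2) (k ^ 3), 0 ≤ (if i = j + 1 then (1 : ℝ) else 0) *
      (Λ ((k : ℝ) ^ 3 / j) - Λ ((k : ℝ) ^ 3 / ((j : ℝ) + 1))) := by
    intro j hj
    have hj0 : 0 < j := lt_of_lt_of_le (by positivity) (Finset.mem_Ico.1 hj).1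
    have hj0' : (0 : ℝ) < j := by exact_mod_cast hj0
    refine mul_nonneg (by split_ifs <;> norm_num) (sub_nonneg.2 (hΛ.mono ?_))
    gcongr
    linarith
  rcases le_or_gt i (k ^ 2) with hik | hik
  · have hak : a ≤ 1 / k := by
      rw [ha, div_le_div_iff₀ hM hk0]
      have : (i : ℝ) ≤ (k : ℝ) ^ 2 := by exact_mod_cast hik
      nlinarith
    have b1 := lm_le hΛ hu hu1
    have b2 := lm_le hΛ ha0 ha1
    have b3 := lm_nonneg hΛ u
    have b4 := lm_nonneg hΛ a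
    have b5 : C * a ≤ C * (1 / k) := by gcongr
    have b6 : C * u ≤ C * a := by gcongr
    have b7 : C * (1 / (k : ℝ)) ≤ 2 * C / k := by
      rw [mul_one_div]
      gcongr
      linarith
    have b8 := Finset.sum_nonneg hs0
    have : |lm Λ u - lm Λ a| ≤ 2 * C / k := by
      rw [abs_le]
      constructor <;> linarith
    linarith
  · obtain ⟨j, hj⟩ : ∃ j, i = j + 1 := ⟨i - 1, by omega⟩
    have hjm : j ∈ Ico (k ^ 2) (k ^ 3) := Finset.mem_Ico.2 (by omega)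
    have b1 := Finset.single_le_sum hs0 hjm
    rw [if_pos hj, one_mul] at b1
    have hj0 : 0 < j := lt_of_lt_of_le (by positivity) (Finset.mem_Ico.1 hjm).1
    have hj0' : (0 : ℝ) < j := by exact_mod_cast hj0
    have hja : (j : ℝ) + 1 = i := by rw [hj]; push_cast; ring
    have hju : (j : ℝ) / (k : ℝ) ^ 3 ≤ u := by
      rw [div_le_iff₀ hM]
      have h1 := hau
      rw [ha, ← hja, div_lt_iff₀ hM] at h1
      have e1 : (u + 1 / (k : ℝ) ^ 3) * (k : ℝ) ^ 3 = u * (k : ℝ) ^ 3 + 1 := by field_simp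
      linarith
    have c1 : Λ u⁻¹ ≤ Λ ((k : ℝ) ^ 3 / j) := by
      refine hΛ.mono ?_
      rw [inv_le_comm₀ hu (by positivity), inv_div]
      exact hju
    have c2 : Λ a⁻¹ = Λ ((k : ℝ) ^ 3 / ((j : ℝ) + 1)) := by
      rw [hja, ha, inv_div]
    have c3 : Λ a⁻¹ ≤ Λ u⁻¹ := hΛ.mono (by gcongr)
    have c4 : Λ a⁻¹ ≤ C * a⁻¹ := hΛ.le _ ((one_le_inv₀ ha0).2 ha1)
    have c5 := hΛ.nonneg a⁻¹
    have c6 : u ^ 2 ≤ 1 := by nlinarith
    have d1 : lm Λ u - lm Λ a = u ^ 2 * (Λ u⁻¹ - Λ a⁻¹) - (a ^ 2 - u ^ 2) * Λ a⁻¹ := by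
      unfold lm
      ring
    have d2 : u ^ 2 * (Λ u⁻¹ - Λ a⁻¹) ≤ Λ ((k : ℝ) ^ 3 / j) - Λ ((k : ℝ) ^ 3 / ((j : ℝ) + 1)) := by
      rw [← c2]
      nlinarith
    have d3 : 0 ≤ u ^ 2 * (Λ u⁻¹ - Λ a⁻¹) := mul_nonneg (sq_nonneg _) (by linarith)
    have d4 : a ^ 2 - u ^ 2 ≤ 2 * a / (k : ℝ) ^ 3 := by
      have : a ^ 2 - u ^ 2 = (a - u) * (a + u) := by ring
      rw [this]
      calc (a - u) * (a + u) ≤ (1 / (k : ℝ) ^ 3) * (2 * a) := by
            apply mul_le_mul <;> first | positivity | linarith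
        _ = 2 * a / (k : ℝ) ^ 3 := by ring
    have d5 : (a ^ 2 - u ^ 2) * Λ a⁻¹ ≤ 2 * C / k := by
      calc (a ^ 2 - u ^ 2) * Λ a⁻¹ ≤ (2 * a / (k : ℝ) ^ 3) * (C * a⁻¹) := by
            apply mul_le_mul d4 c4 c5 (by positivity)
        _ = 2 * C / (k : ℝ) ^ 3 := by field_simp
        _ ≤ 2 * C / k := by
            gcongr
            calc (k : ℝ) = k ^ 1 := by ring
              _ ≤ (k : ℝ) ^ 3 := pow_le_pow_right₀ hk1 (by norm_num)
    have d6 : 0 ≤ (a ^ 2 - u ^ 2) * Λ a⁻¹ := mul_nonneg (by nlinarith) c5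
    have d7 : 0 ≤ 2 * C / (k : ℝ) := by positivity
    rw [d1, abs_le]
    constructor <;> linarith

/-- The sum of the jumps. -/
theorem sum_jump {Λ : ℝ → ℝ} {C : ℝ} (hΛ : IsLam Λ C) {k : ℕ} (hk : 1 ≤ k) :
    ∑ j ∈ Ico (k ^ 2) (k ^ 3), (Λ ((k : ℝ) ^ 3 / j) - Λ ((k : ℝ) ^ 3 / ((j : ℝ) + 1))) ≤
      C * k := by
  have hk0 : (0 : ℝ) < k := by exact_mod_cast hk
  have hk1 : (1 : ℝ) ≤ k := by exact_mod_cast hk
  have h23 : k ^ 2 ≤ k ^ 3 := Nat.pow_le_pow_right hk (by norm_num)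
  have h1 : ∀ n, k ^ 2 ≤ n →
      ∑ j ∈ Ico (k ^ 2) n, (Λ ((k : ℝ) ^ 3 / j) - Λ ((k : ℝ) ^ 3 / ((j : ℝ) + 1))) =
        Λ ((k : ℝ) ^ 3 / ((k ^ 2 : ℕ) : ℝ)) - Λ ((k : ℝ) ^ 3 / n) := by
    intro n hn
    induction n, hn using Nat.le_induction with
    | base => simp
    | succ n hn ih =>
      rw [Finset.sum_Ico_succ_top hn, ih]
      push_cast
      ring
  rw [h1 _ h23]
  have e1 : (k : ℝ) ^ 3 / ((k ^ 2 : ℕ) : ℝ) = k := by
    push_cast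
    field_simp
  rw [e1]
  have := hΛ.le k hk1
  have := hΛ.nonneg ((k : ℝ) ^ 3 / ((k ^ 3 : ℕ) : ℝ))
  linarith

/-! ## Normalized sums -/

section

variable {Y : Type}

/-- The normalized sum. -/
noncomputable def Sm (A : ℝ → Finset Y) (e : ℕ) (φ : ℝ → Y → ℝ) (T : ℝ) : ℝ :=
  (∑ p ∈ A T, φ T p) / T ^ e

/-- The indicator function of a half line. -/
noncomputable def ch (h : Y → ℝ) (α T : ℝ) (p : Y) : ℝ := if h p ≤ α * T then 1 else 0

theorem Sm_add (A : ℝ → Finset Y) (e : ℕ) (φ φ' : ℝ → Y → ℝ) (T : ℝ) :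
    Sm A e (fun T p => φ T p + φ' T p) T = Sm A e φ T + Sm A e φ' T := by
  unfold Sm
  rw [Finset.sum_add_distrib, add_div]

theorem Sm_sub (A : ℝ → Finset Y) (e : ℕ) (φ φ' : ℝ → Y → ℝ) (T : ℝ) :
    Sm A e (fun T p => φ T p - φ' T p) T = Sm A e φ T - Sm A e φ' T := by
  unfold Sm
  rw [Finset.sum_sub_distrib, sub_div]

theorem Sm_mul (A : ℝ → Finset Y) (e : ℕ) (c : ℝ) (φ : ℝ → Y → ℝ) (T : ℝ) :
    Sm A e (fun T p => c * φ T p) T = c * Sm A e φ T := by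
  unfold Sm
  rw [← Finset.mul_sum, mul_div_assoc]

theorem Sm_sum (A : ℝ → Finset Y) (e : ℕ) {κ : Type} (s : Finset κ) (φ : κ → ℝ → Y → ℝ) (T : ℝ) :
    Sm A e (fun T p => ∑ i ∈ s, φ i T p) T = ∑ i ∈ s, Sm A e (φ i) T := by
  unfold Sm
  rw [Finset.sum_comm, Finset.sum_div]

theorem Sm_mono (A : ℝ → Finset Y) (e : ℕ) (φ φ' : ℝ → Y → ℝ) {T : ℝ} (hT : 0 < T)
    (h : ∀ p ∈ A T, φ T p ≤ φ' T p) : Sm A e φ T ≤ Sm A e φ' T := by
  unfold Sm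
  have := Finset.sum_le_sum h
  gcongr

theorem Sm_congr (A : ℝ → Finset Y) (e : ℕ) (φ φ' : ℝ → Y → ℝ) {T : ℝ}
    (h : ∀ p ∈ A T, φ T p = φ' T p) : Sm A e φ T = Sm A e φ' T := by
  unfold Sm
  rw [Finset.sum_congr rfl h]

theorem Sm_abs (A : ℝ → Finset Y) (e : ℕ) (φ : ℝ → Y → ℝ) {T : ℝ} (hT : 0 < T) :
    |Sm A e φ T| ≤ Sm A e (fun T p => |φ T p|) T := by
  unfold Sm
  rw [abs_div, abs_of_pos (show 0 < T ^ e by positivity)]
  have := Finset.abs_sum_le_sum_abs (fun p => φ T p) (A T)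
  gcongr

/-- The sum of a constant. -/
theorem Sm_const (A : ℝ → Finset Y) (e : ℕ) (C c : ℝ) (hc : 0 ≤ c) {T : ℝ} (hT : 0 < T)
    (h : ((A T).card : ℝ) ≤ C * T ^ e) : Sm A e (fun _ _ => c) T ≤ C * c := by
  unfold Sm
  rw [Finset.sum_const, nsmul_eq_mul, div_le_iff₀ (by positivity)]
  nlinarith

variable {h0 h1 : Y → ℝ} {A : ℝ → Finset Y} {e : ℕ}

/-- The sums over the boxes. -/
theorem Sm_ch (hA : ∀ T p, p ∈ A T ↔ h0 p ≤ T ∧ h1 p ≤ T) (X : Y → ℝ) {α β T : ℝ} (hT : 0 < T)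
    (hα : α ≤ 1) (hβ : β ≤ 1) :
    Sm A e (fun T p => ch h0 α T p * ch h1 β T p * X p) T =
      (∑ᶠ p ∈ {p : Y | h0 p ≤ α * T ∧ h1 p ≤ β * T}, X p) / T ^ e := by
  classical
  have hB : {p : Y | h0 p ≤ α * T ∧ h1 p ≤ β * T} =
      (((A T).filter fun p => h0 p ≤ α * T ∧ h1 p ≤ β * T : Finset Y) : Set Y) := by
    ext p
    simp only [Set.mem_ofPred_eq, Finset.coe_filter, hA]
    constructor
    · rintro ⟨a, b⟩
      exact ⟨⟨by nlinarith, by nlinarith⟩, a, b⟩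
    · exact fun h => h.2
  unfold Sm
  rw [hB, finsum_mem_coe_finset, Finset.sum_filter]
  congr 1
  refine Finset.sum_congr rfl fun p _ => ?_
  simp only [ch]
  by_cases a : h0 p ≤ α * T
  · by_cases b : h1 p ≤ β * T
    · rw [if_pos a, if_pos b, if_pos ⟨a, b⟩]
      ring
    · rw [if_neg b, if_neg (show ¬ (h0 p ≤ α * T ∧ h1 p ≤ β * T) from fun h => b h.2)]
      ring
  · rw [if_neg a, if_neg (show ¬ (h0 p ≤ α * T ∧ h1 p ≤ β * T) from fun h => a h.1)]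
    ring

/-- Cells. -/
theorem cell (h0p : ∀ p, 1 ≤ h0 p) (h1p : ∀ p, 1 ≤ h1 p) (X : Y → ℝ)
    (hX : ∀ α β : ℝ, 0 < α → 0 < β → α ≤ 1 → β ≤ 1 → ∃ c, Tendsto
      (Sm A e fun T p => ch h0 α T p * ch h1 β T p * X p) atTop (nhds c))
    (α α' β β' : ℝ) (hα : 0 ≤ α) (hα' : 0 ≤ α') (hβ : 0 ≤ β) (hβ' : 0 ≤ β') (gα : α ≤ 1)
    (gα' : α' ≤ 1) (gβ : β ≤ 1) (gβ' : β' ≤ 1) : ∃ c, Tendsto
      (Sm A e fun T p => (ch h0 α T p - ch h0 α' T p) * (ch h1 β T p - ch h1 β' T p) * X p) atTop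
      (nhds c) := by
  have key : ∀ α β : ℝ, 0 ≤ α → 0 ≤ β → α ≤ 1 → β ≤ 1 → ∃ c, Tendsto
      (Sm A e fun T p => ch h0 α T p * ch h1 β T p * X p) atTop (nhds c) := by
    intro α β a b ga gb
    rcases a.eq_or_lt with rfl | a
    · refine ⟨0, tendsto_const_nhds.congr fun T => ?_⟩
      have : Sm A e (fun T p => ch h0 0 T p * ch h1 β T p * X p) T = Sm A e (fun _ _ => 0) T := by
        apply Sm_congr
        intro p _
        have h2 : ch h0 0 T p = 0 := if_neg (by have := h0p p; linarith)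
        rw [h2]
        ring
      rw [this]
      simp [Sm]
    rcases b.eq_or_lt with rfl | b
    · refine ⟨0, tendsto_const_nhds.congr fun T => ?_⟩
      have : Sm A e (fun T p => ch h0 α T p * ch h1 0 T p * X p) T = Sm A e (fun _ _ => 0) T := by
        apply Sm_congr
        intro p _
        have h2 : ch h1 0 T p = 0 := if_neg (by have := h1p p; linarith)
        rw [h2]
        ring
      rw [this]
      simp [Sm]
    exact hX α β a b ga gb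
  obtain ⟨c1, k1⟩ := key α β hα hβ gα gβ
  obtain ⟨c2, k2⟩ := key α β' hα hβ' gα gβ'
  obtain ⟨c3, k3⟩ := key α' β hα' hβ gα' gβ
  obtain ⟨c4, k4⟩ := key α' β' hα' hβ' gα' gβ'
  refine ⟨c1 - c2 - (c3 - c4), ((k1.sub k2).sub (k3.sub k4)).congr fun T => ?_⟩
  rw [← Sm_sub, ← Sm_sub, ← Sm_sub A e (fun T p => _ - _) (fun T p => _ - _)]
  apply Sm_congr
  intro p _
  ring

/-- The indicator function of a cell. -/
theorem ch_cell {h : Y → ℝ} {N : ℕ} (hN : 1 ≤ N) {T : ℝ} (hT : 0 < T) (j : ℕ) (p : Y) :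
    ch h (((j : ℝ) + 1) / N) T p - ch h ((j : ℝ) / N) T p =
      if ⌈(N : ℝ) * (h p / T)⌉₊ = j + 1 then 1 else 0 := by
  have hN0 : (0 : ℝ) < N := by exact_mod_cast hN
  have key : ∀ i : ℕ, h p ≤ (i : ℝ) / N * T ↔ ⌈(N : ℝ) * (h p / T)⌉₊ ≤ i := by
    intro i
    rw [Nat.ceil_le, mul_div_assoc', div_le_iff₀ hT, div_mul_eq_mul_div, le_div_iff₀ hN0, mul_comm]
  have k1 := key j
  have k2 := key (j + 1)
  push_cast at k2
  unfold ch
  simp only [k1, k2]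
  split_ifs <;> first | omega | simp

/-- Step functions. -/
theorem step (h0p : ∀ p, 1 ≤ h0 p) (h1p : ∀ p, 1 ≤ h1 p)
    (hA : ∀ T p, p ∈ A T ↔ h0 p ≤ T ∧ h1 p ≤ T) {N : ℕ} (hN : 1 ≤ N) (X : ℕ → ℕ → Y → ℝ)
    (hX : ∀ i j : ℕ, 1 ≤ i → 1 ≤ j → ∀ α β : ℝ, 0 < α → 0 < β → α ≤ 1 → β ≤ 1 → ∃ c, Tendsto
      (Sm A e fun T p => ch h0 α T p * ch h1 β T p * X i j p) atTop (nhds c)) :
    ∃ c, Tendsto (Sm A e fun T p => X ⌈(N : ℝ) * (h0 p / T)⌉₊ ⌈(N : ℝ) * (h1 p / T)⌉₊ p) atTop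
      (nhds c) := by
  have hN0 : (0 : ℝ) < N := by exact_mod_cast hN
  have h1 : ∀ i j : ℕ, i ∈ Finset.range N → j ∈ Finset.range N → ∃ c, Tendsto
      (Sm A e fun T p => (ch h0 (((i : ℝ) + 1) / N) T p - ch h0 ((i : ℝ) / N) T p) *
        (ch h1 (((j : ℝ) + 1) / N) T p - ch h1 ((j : ℝ) / N) T p) * X (i + 1) (j + 1) p) atTop
      (nhds c) := by
    intro i j hi hj
    have hi' : (i : ℝ) + 1 ≤ N := by exact_mod_cast Finset.mem_range.1 hi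
    have hj' : (j : ℝ) + 1 ≤ N := by exact_mod_cast Finset.mem_range.1 hj
    refine cell h0p h1p _ (hX (i + 1) (j + 1) (by omega) (by omega)) _ _ _ _ (by positivity)
      (by positivity) (by positivity) (by positivity) ?_ ?_ ?_ ?_ <;>
    · rw [div_le_one hN0]
      linarith
  choose! c hc using h1
  refine ⟨∑ i ∈ Finset.range N, ∑ j ∈ Finset.range N, c i j, ?_⟩
  have h2 := tendsto_finsetSum (Finset.range N) fun i hi =>
    tendsto_finsetSum (Finset.range N) fun j hj => hc i j hi hj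
  refine h2.congr' ?_
  filter_upwards [eventually_gt_atTop 0] with T hT
  simp_rw [← Sm_sum]
  apply Sm_congr
  intro p hp
  have hp' := (hA T p).1 hp
  have hq : ∀ h : Y → ℝ, 1 ≤ h p → h p ≤ T →
      ∃ i ∈ Finset.range N, ⌈(N : ℝ) * (h p / T)⌉₊ = i + 1 := by
    intro h h1 h2
    have a1 : 0 < ⌈(N : ℝ) * (h p / T)⌉₊ := Nat.ceil_pos.2 (by positivity)
    have a2 : ⌈(N : ℝ) * (h p / T)⌉₊ ≤ N := by
      rw [Nat.ceil_le]
      have : h p / T ≤ 1 := (div_le_one hT).2 h2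
      nlinarith
    exact ⟨⌈(N : ℝ) * (h p / T)⌉₊ - 1, Finset.mem_range.2 (by omega), by omega⟩
  obtain ⟨i, hi, ei⟩ := hq h0 (h0p p) hp'.1
  obtain ⟨j, hj, ej⟩ := hq h1 (h1p p) hp'.2
  rw [ei, ej, Finset.sum_eq_single_of_mem i hi, Finset.sum_eq_single_of_mem j hj]
  · rw [ch_cell hN hT, ch_cell hN hT, if_pos ei, if_pos ej]
    ring
  · intro j' _ hj'
    rw [ch_cell hN hT, ch_cell hN hT, if_neg (show ¬ ⌈(N : ℝ) * (h1 p / T)⌉₊ = j' + 1 by omega)]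
    ring
  · intro i' _ hi'
    refine Finset.sum_eq_zero fun j' _ => ?_
    rw [ch_cell hN hT, ch_cell hN hT, if_neg (show ¬ ⌈(N : ℝ) * (h0 p / T)⌉₊ = i' + 1 by omega)]
    ring

/-- Homogeneity. -/
theorem hom {W : Y → ℝ} {c : ℝ → ℝ → ℝ}
    (hc : ∀ α β : ℝ, 0 < α → 0 < β → Tendsto (fun T : ℝ =>
      (∑ᶠ p ∈ {p : Y | h0 p ≤ α * T ∧ h1 p ≤ β * T}, W p) / T ^ e) atTop (nhds (c α β)))
    {t α β : ℝ} (ht : 0 < t) (hα : 0 < α) (hβ : 0 < β) :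
    c (t * α) (t * β) = t ^ e * c α β := by
  have h1 := hc (t * α) (t * β) (by positivity) (by positivity)
  have h2 := ((hc α β hα hβ).comp (tendsto_id.const_mul_atTop ht)).const_mul (t ^ e)
  refine tendsto_nhds_unique h1 (h2.congr' ?_)
  filter_upwards [eventually_gt_atTop 0] with T hT
  simp only [Function.comp_apply, id]
  have e1 : ∀ a : ℝ, a * (t * T) = t * a * T := fun a => by ring
  rw [e1, e1, mul_pow]
  field_simp

/-- The strips. -/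
theorem strip (hA : ∀ T p, p ∈ A T ↔ h0 p ≤ T ∧ h1 p ≤ T) {C D : ℝ} (hD : 0 ≤ D)
    (hcnt : ∀ T : ℝ, 1 ≤ T → ((A T).card : ℝ) ≤ C * T ^ e) {W : Y → ℝ} (hW0 : ∀ p, 0 ≤ W p)
    (hWD : ∀ p, W p ≤ D) {c : ℝ → ℝ → ℝ}
    (hc : ∀ α β : ℝ, 0 < α → 0 < β → Tendsto (fun T : ℝ =>
      (∑ᶠ p ∈ {p : Y | h0 p ≤ α * T ∧ h1 p ≤ β * T}, W p) / T ^ e) atTop (nhds (c α β)))
    {N j : ℕ} (hj : 1 ≤ j) (hjN : j + 1 ≤ N) : ∃ l : ℝ,
      Tendsto (Sm A e fun T p => (ch h0 (((j : ℝ) + 1) / N) T p - ch h0 ((j : ℝ) / N) T p) * W p)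
        atTop (nhds l) ∧ l ≤ (e : ℝ) / ((j : ℝ) + 1) * (C * D) := by
  have hN0 : (0 : ℝ) < N := by exact_mod_cast (show 0 < N by omega)
  have hj0 : (0 : ℝ) < j := by exact_mod_cast hj
  have hjN' : (j : ℝ) + 1 ≤ N := by exact_mod_cast hjN
  have hcS : ∀ α β : ℝ, 0 < α → 0 < β → α ≤ 1 → β ≤ 1 → Tendsto
      (Sm A e fun T p => ch h0 α T p * ch h1 β T p * W p) atTop (nhds (c α β)) := by
    intro α β a b ga gb
    refine (hc α β a b).congr' ?_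
    filter_upwards [eventually_gt_atTop 0] with T hT
    exact (Sm_ch hA W hT ga gb).symm
  have hch : ∀ (h : Y → ℝ) (α T : ℝ) (p : Y), 0 ≤ ch h α T p ∧ ch h α T p ≤ 1 := by
    intro h α T p
    unfold ch
    split_ifs <;> norm_num
  set a : ℝ := ((j : ℝ) + 1) / N with ha
  set a' : ℝ := (j : ℝ) / N with ha'
  have ha0 : 0 < a := by positivity
  have ha'0 : 0 < a' := by positivity
  have ha1 : a ≤ 1 := (div_le_one hN0).2 hjN'
  have ha'1 : a' ≤ 1 := (div_le_one hN0).2 (by linarith)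
  have hq : a' / a = (j : ℝ) / ((j : ℝ) + 1) := by
    rw [ha, ha']
    field_simp
  have hq1 : a' / a ≤ 1 := by
    rw [hq, div_le_one (by positivity)]
    linarith
  have k1 := hcS a 1 ha0 one_pos ha1 le_rfl
  have k2 := hcS a' 1 ha'0 one_pos ha'1 le_rfl
  have k3 := hcS a' (a' / a) ha'0 (by positivity) ha'1 hq1
  refine ⟨c a 1 - c a' 1, (k1.sub k2).congr' ?_, ?_⟩
  · filter_upwards [eventually_gt_atTop 0] with T hT
    rw [← Sm_sub]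
    apply Sm_congr
    intro p hp
    have h2 : ch h1 1 T p = 1 := if_pos (by have := ((hA T p).1 hp).2; linarith)
    simp only [h2]
    ring
  · have m1 : c a' (a' / a) ≤ c a' 1 := by
      refine le_of_tendsto_of_tendsto k3 k2 ?_
      filter_upwards [eventually_gt_atTop 0] with T hT
      refine Sm_mono A e _ _ hT fun p _ => ?_
      have g1 := hch h0 a' T p
      have g2 : ch h1 (a' / a) T p ≤ ch h1 1 T p := by
        unfold ch
        split_ifs with u v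
        · exact le_rfl
        · exact absurd (u.trans (by gcongr)) v
        · norm_num
        · exact le_rfl
      have g3 := hW0 p
      have g4 := g1.1
      gcongr
    have m2 : c a' (a' / a) = (a' / a) ^ e * c a 1 := by
      have := hom hc (t := a' / a) (by positivity) ha0 one_pos
      rw [div_mul_cancel₀ _ ha0.ne', mul_one] at this
      exact this
    have m3 : c a 1 ≤ C * D := by
      refine le_of_tendsto k1 ?_
      filter_upwards [eventually_ge_atTop 1] with T hT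
      refine (Sm_mono A e _ (fun _ _ => D) (by linarith) fun p _ => ?_).trans
        (Sm_const A e C D hD (by linarith) (hcnt T hT))
      have g1 := hch h0 a T p
      have g2 := hch h1 1 T p
      calc ch h0 a T p * ch h1 1 T p * W p ≤ 1 * 1 * D := by
            have := g1.1
            have := g2.1
            have := hW0 p
            have := hWD p
            gcongr
            · exact g1.2
            · exact g2.2
        _ = D := by ring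
    have m4 : 0 ≤ c a 1 := by
      refine ge_of_tendsto k1 ?_
      filter_upwards [eventually_gt_atTop 0] with T hT
      unfold Sm
      refine div_nonneg (Finset.sum_nonneg fun p _ => ?_) (by positivity)
      exact mul_nonneg (mul_nonneg (hch h0 a T p).1 (hch h1 1 T p).1) (hW0 p)
    have m5 : 1 - (a' / a) ^ e ≤ (e : ℝ) / ((j : ℝ) + 1) := by
      have b1 := one_add_mul_le_pow (show (-2 : ℝ) ≤ -(1 / ((j : ℝ) + 1)) by
        have : 1 / ((j : ℝ) + 1) ≤ 1 := by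
          rw [div_le_one (by positivity)]
          linarith
        linarith) e
      have b2 : 1 + -(1 / ((j : ℝ) + 1)) = a' / a := by
        rw [hq]
        field_simp
        ring
      rw [b2] at b1
      have b3 : (e : ℝ) * -(1 / ((j : ℝ) + 1)) = -((e : ℝ) / ((j : ℝ) + 1)) := by ring
      linarith
    have m6 : 0 ≤ (e : ℝ) / ((j : ℝ) + 1) := by positivity
    calc c a 1 - c a' 1 ≤ c a 1 - (a' / a) ^ e * c a 1 := by linarith
      _ = (1 - (a' / a) ^ e) * c a 1 := by ring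
      _ ≤ ((e : ℝ) / ((j : ℝ) + 1)) * c a 1 := by gcongr
      _ ≤ (e : ℝ) / ((j : ℝ) + 1) * (C * D) := by gcongr

/-- The error by the replacement of the function by a step function. -/
theorem err (h0p : ∀ p, 1 ≤ h0 p) (hA : ∀ T p, p ∈ A T ↔ h0 p ≤ T ∧ h1 p ≤ T) {C D : ℝ}
    (hC : 1 ≤ C) (hD : 0 ≤ D)
    (hcnt : ∀ T : ℝ, 1 ≤ T → ((A T).card : ℝ) ≤ C * T ^ e) {W : Y → ℝ} (hW0 : ∀ p, 0 ≤ W p)
    (hWD : ∀ p, W p ≤ D)
    (hc : ∀ α β : ℝ, 0 < α → 0 < β → ∃ c, Tendsto (fun T : ℝ =>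
      (∑ᶠ p ∈ {p : Y | h0 p ≤ α * T ∧ h1 p ≤ β * T}, W p) / T ^ e) atTop (nhds c))
    {Λ : ℝ → ℝ} (hΛ : IsLam Λ C) {k : ℕ} (hk : 1 ≤ k) :
    ∀ᶠ T in atTop, Sm A e (fun T p => |lm Λ (h0 p / T) -
      lm Λ ((⌈(k : ℝ) ^ 3 * (h0 p / T)⌉₊ : ℝ) / (k : ℝ) ^ 3)| * W p) T ≤
        (2 * C * (C * D) + e * C ^ 2 * D + 1) / k := by
  have hk0 : (0 : ℝ) < k := by exact_mod_cast hk
  have hk1 : (1 : ℝ) ≤ k := by exact_mod_cast hk
  choose! c hc using hc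
  have hst : ∀ j, j ∈ Ico (k ^ 2) (k ^ 3) → ∃ l : ℝ,
      Tendsto (Sm A e fun T p => (ch h0 (((j : ℝ) + 1) / ((k ^ 3 : ℕ) : ℝ)) T p -
        ch h0 ((j : ℝ) / ((k ^ 3 : ℕ) : ℝ)) T p) * W p) atTop (nhds l) ∧
        l ≤ (e : ℝ) / ((j : ℝ) + 1) * (C * D) := by
    intro j hj
    have := Finset.mem_Ico.1 hj
    exact strip hA hD hcnt hW0 hWD hc (lt_of_lt_of_le (by positivity) this.1) this.2
  choose! l hl hl' using hst
  set d : ℕ → ℝ := fun j => Λ ((k : ℝ) ^ 3 / j) - Λ ((k : ℝ) ^ 3 / ((j : ℝ) + 1)) with hd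
  have hd0 : ∀ j ∈ Ico (k ^ 2) (k ^ 3), 0 ≤ d j := by
    intro j hj
    have hj0 : 0 < j := lt_of_lt_of_le (by positivity) (Finset.mem_Ico.1 hj).1
    have hj0' : (0 : ℝ) < j := by exact_mod_cast hj0
    refine sub_nonneg.2 (hΛ.mono ?_)
    gcongr
    linarith
  have hlim : Tendsto (fun T => ∑ j ∈ Ico (k ^ 2) (k ^ 3), d j *
      Sm A e (fun T p => (ch h0 (((j : ℝ) + 1) / ((k ^ 3 : ℕ) : ℝ)) T p -
        ch h0 ((j : ℝ) / ((k ^ 3 : ℕ) : ℝ)) T p) * W p) T) atTop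
      (nhds (∑ j ∈ Ico (k ^ 2) (k ^ 3), d j * l j)) :=
    tendsto_finsetSum _ fun j hj => (hl j hj).const_mul _
  have hlim' : ∑ j ∈ Ico (k ^ 2) (k ^ 3), d j * l j ≤ e * C ^ 2 * D / k := by
    have b1 : ∀ j ∈ Ico (k ^ 2) (k ^ 3), d j * l j ≤ (e : ℝ) / (k : ℝ) ^ 2 * (C * D) * d j := by
      intro j hj
      have hj1 : ((k : ℝ) ^ 2) ≤ (j : ℝ) + 1 := by
        have : k ^ 2 ≤ j + 1 := by
          have := (Finset.mem_Ico.1 hj).1
          omega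
        exact_mod_cast this
      have b2 := hl' j hj
      have b3 := hd0 j hj
      have b4 : (e : ℝ) / ((j : ℝ) + 1) * (C * D) ≤ (e : ℝ) / (k : ℝ) ^ 2 * (C * D) := by
        gcongr
      calc d j * l j ≤ d j * ((e : ℝ) / (k : ℝ) ^ 2 * (C * D)) := by
            gcongr
            linarith
        _ = _ := by ring
    refine (Finset.sum_le_sum b1).trans ?_
    rw [← Finset.mul_sum]
    calc (e : ℝ) / (k : ℝ) ^ 2 * (C * D) * ∑ j ∈ Ico (k ^ 2) (k ^ 3), d j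
        ≤ (e : ℝ) / (k : ℝ) ^ 2 * (C * D) * (C * k) := by
          have := sum_jump hΛ hk
          gcongr
      _ = e * C ^ 2 * D / k := by
          field_simp
  have hev : ∀ᶠ T in atTop, (∑ j ∈ Ico (k ^ 2) (k ^ 3), d j *
      Sm A e (fun T p => (ch h0 (((j : ℝ) + 1) / ((k ^ 3 : ℕ) : ℝ)) T p -
        ch h0 ((j : ℝ) / ((k ^ 3 : ℕ) : ℝ)) T p) * W p) T) < e * C ^ 2 * D / k + 1 / k :=
    hlim.eventually_lt_const (by
      have : 0 < 1 / (k : ℝ) := by positivity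
      linarith)
  filter_upwards [hev, eventually_ge_atTop 1] with T hT hT1
  have hT0 : 0 < T := by linarith
  have hM : 1 ≤ k ^ 3 := Nat.one_le_pow _ _ hk
  have e1 : ∀ p ∈ A T, |lm Λ (h0 p / T) -
      lm Λ ((⌈(k : ℝ) ^ 3 * (h0 p / T)⌉₊ : ℝ) / (k : ℝ) ^ 3)| * W p ≤
        2 * C / k * W p + ∑ j ∈ Ico (k ^ 2) (k ^ 3), d j *
          ((ch h0 (((j : ℝ) + 1) / ((k ^ 3 : ℕ) : ℝ)) T p -
            ch h0 ((j : ℝ) / ((k ^ 3 : ℕ) : ℝ)) T p) * W p) := by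
    intro p hp
    have hp1 := ((hA T p).1 hp).1
    have hp0 := h0p p
    have g := lm_diff hC hΛ hk (u := h0 p / T) (by positivity) ((div_le_one hT0).2 hp1)
    calc _ ≤ _ := mul_le_mul_of_nonneg_right g (hW0 p)
      _ = _ := by
        rw [add_mul, Finset.sum_mul]
        congr 1
        refine Finset.sum_congr rfl fun j _ => ?_
        rw [ch_cell hM hT0]
        push_cast
        ring
  have e2 := Sm_mono A e (fun T p => |lm Λ (h0 p / T) -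
      lm Λ ((⌈(k : ℝ) ^ 3 * (h0 p / T)⌉₊ : ℝ) / (k : ℝ) ^ 3)| * W p)
      (fun T p => 2 * C / k * W p + ∑ j ∈ Ico (k ^ 2) (k ^ 3), d j *
          ((ch h0 (((j : ℝ) + 1) / ((k ^ 3 : ℕ) : ℝ)) T p -
            ch h0 ((j : ℝ) / ((k ^ 3 : ℕ) : ℝ)) T p) * W p)) hT0 e1
  refine e2.trans ?_
  rw [Sm_add A e (fun T p => 2 * C / k * W p), Sm_mul A e _ (fun _ p => W p), Sm_sum]
  have e3 : Sm A e (fun _ p => W p) T ≤ C * D :=
    (Sm_mono A e _ (fun _ _ => D) hT0 fun p _ => hWD p).trans (Sm_const A e C D hD hT0 (hcnt T hT1))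
  have e4 : ∑ j ∈ Ico (k ^ 2) (k ^ 3), Sm A e (fun T p => d j *
          ((ch h0 (((j : ℝ) + 1) / ((k ^ 3 : ℕ) : ℝ)) T p -
            ch h0 ((j : ℝ) / ((k ^ 3 : ℕ) : ℝ)) T p) * W p)) T =
      ∑ j ∈ Ico (k ^ 2) (k ^ 3), d j *
      Sm A e (fun T p => (ch h0 (((j : ℝ) + 1) / ((k ^ 3 : ℕ) : ℝ)) T p -
        ch h0 ((j : ℝ) / ((k ^ 3 : ℕ) : ℝ)) T p) * W p) T :=
    Finset.sum_congr rfl fun j _ => Sm_mul A e _ _ T
  rw [e4]
  have e5 : 2 * C / k * Sm A e (fun _ p => W p) T ≤ 2 * C / k * (C * D) := by gcongr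
  have e6 : (2 * C * (C * D) + e * C ^ 2 * D + 1) / k =
      2 * C / k * (C * D) + (e * C ^ 2 * D / k + 1 / k) := by
    field_simp
    ring
  rw [e6]
  linarith

/-- The sums for a fixed truncation of the distance. -/
theorem lim_z (h0p : ∀ p, 1 ≤ h0 p) (h1p : ∀ p, 1 ≤ h1 p)
    (hA : ∀ T p, p ∈ A T ↔ h0 p ≤ T ∧ h1 p ≤ T) {C : ℝ} (hC : 1 ≤ C)
    (hcnt : ∀ T : ℝ, 1 ≤ T → ((A T).card : ℝ) ≤ C * T ^ e) {Λ : ℝ → ℝ} (hΛ : IsLam Λ C)
    {σ F : Y → ℝ} (hσ : ∀ p, 0 ≤ σ p ∧ σ p ≤ C) (hF : ∀ p, 0 ≤ F p ∧ F p ≤ C)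
    (hlim : ∀ (G : ℝ → ℝ) (α β : ℝ),
      (∃ Γ : ℝ, ∀ u v, |G u - G v| ≤ Γ * |u - v|) → (∀ u, 0 ≤ G u) → (∀ u, G u ≤ 1) → 0 < α →
      0 < β → ∃ c : ℝ, Tendsto (fun T : ℝ =>
        (∑ᶠ p ∈ {p : Y | h0 p ≤ α * T ∧ h1 p ≤ β * T}, σ p ^ 2 * G (σ p) * F p) /
          T ^ e) atTop (nhds c))
    {ρ : ℝ} {g : ℝ → ℝ} (hρ : 1 ≤ ρ) {Γ : ℝ} (hg : ∀ u v, |g u - g v| ≤ Γ * |u - v|)
    (hg0 : ∀ u, 0 ≤ g u) (hg1 : ∀ u, g u ≤ 1) :
    ∃ c, Tendsto (Sm A e fun T p => lm Λ (h0 p / T) * lm Λ (h1 p / T) *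
      g (ρ * σ p * (h0 p / T * (h1 p / T))) * (σ p ^ 2 * F p)) atTop (nhds c) := by
  have hΓ : 0 ≤ Γ := by
    have := hg 1 0
    have h2 := abs_nonneg (g 1 - g 0)
    norm_num at this
    linarith
  set W : Y → ℝ := fun p => σ p ^ 2 * F p with hW
  have hW0 : ∀ p, 0 ≤ W p := fun p => mul_nonneg (sq_nonneg _) (hF p).1
  have hWD : ∀ p, W p ≤ C ^ 3 := by
    intro p
    have a1 := hσ p
    have a2 := hF p
    calc W p = σ p ^ 2 * F p := rfl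
      _ ≤ C ^ 2 * C := by
        have := a1.1
        have := a2.1
        have := a1.2
        have := a2.2
        gcongr
      _ = C ^ 3 := by ring
  have hD : (0 : ℝ) ≤ C ^ 3 := by positivity
  have hcW : ∀ α β : ℝ, 0 < α → 0 < β → ∃ c, Tendsto (fun T : ℝ =>
      (∑ᶠ p ∈ {p : Y | h0 p ≤ α * T ∧ h1 p ≤ β * T}, W p) / T ^ e) atTop (nhds c) := by
    intro α β a b
    obtain ⟨c, hc⟩ := hlim (fun _ => 1) α β ⟨0, fun u v => by simp⟩ (fun _ => zero_le_one)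
      (fun _ => le_rfl) a b
    refine ⟨c, hc.congr fun T => ?_⟩
    simp only [mul_one, hW]
  have hcW' : ∀ α β : ℝ, 0 < α → 0 < β → ∃ c, Tendsto (fun T : ℝ =>
      (∑ᶠ p ∈ {p : Y | h1 p ≤ α * T ∧ h0 p ≤ β * T}, W p) / T ^ e) atTop (nhds c) := by
    intro α β a b
    obtain ⟨c, hc⟩ := hcW β α b a
    refine ⟨c, hc.congr fun T => ?_⟩
    have : {p : Y | h1 p ≤ α * T ∧ h0 p ≤ β * T} = {p : Y | h0 p ≤ β * T ∧ h1 p ≤ α * T} := by
      ext p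
      exact and_comm
    rw [this]
  have hA' : ∀ T p, p ∈ A T ↔ h1 p ≤ T ∧ h0 p ≤ T := fun T p => (hA T p).trans and_comm
  apply conv_of_approx
  intro ε hε
  set B : ℝ := C * (2 * C * (C * C ^ 3) + e * C ^ 2 * C ^ 3 + 1) with hB
  set B' : ℝ := C ^ 2 * (2 * Γ * ρ * C) * (C * C ^ 3) with hB'
  have hB0 : 0 ≤ B := by positivity
  have hB'0 : 0 ≤ B' := by positivity
  obtain ⟨k, hk⟩ := exists_nat_ge (max 1 ((2 * B + B') / ε))
  have hk1 : (1 : ℝ) ≤ k := (le_max_left _ _).trans hk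
  have hk1' : 1 ≤ k := by exact_mod_cast hk1
  have hk0 : (0 : ℝ) < k := by linarith
  have hkε : (2 * B + B') / k ≤ ε := by
    rw [div_le_iff₀ hk0]
    have := (div_le_iff₀ hε).1 ((le_max_right _ _).trans hk)
    linarith
  have hM : 1 ≤ k ^ 3 := Nat.one_le_pow _ _ hk1'
  have hM0 : (0 : ℝ) < (k : ℝ) ^ 3 := by positivity
  -- the step function
  set X : ℕ → ℕ → Y → ℝ := fun i j p => lm Λ ((i : ℝ) / (k : ℝ) ^ 3) *
    lm Λ ((j : ℝ) / (k : ℝ) ^ 3) *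
      g (ρ * σ p * ((i : ℝ) / (k : ℝ) ^ 3 * ((j : ℝ) / (k : ℝ) ^ 3))) * W p with hX
  have hXc : ∀ i j : ℕ, 1 ≤ i → 1 ≤ j → ∀ α β : ℝ, 0 < α → 0 < β → α ≤ 1 → β ≤ 1 → ∃ c, Tendsto
      (Sm A e fun T p => ch h0 α T p * ch h1 β T p * X i j p) atTop (nhds c) := by
    intro i j _ _ α β a b ga gb
    obtain ⟨c, hc⟩ := hlim (fun u => g (ρ * ((i : ℝ) / (k : ℝ) ^ 3 * ((j : ℝ) / (k : ℝ) ^ 3)) * u))
      α β ⟨Γ * |ρ * ((i : ℝ) / (k : ℝ) ^ 3 * ((j : ℝ) / (k : ℝ) ^ 3))|, fun u v => by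
        refine (hg _ _).trans (le_of_eq ?_)
        rw [← mul_sub, abs_mul, mul_assoc]⟩ (fun _ => hg0 _) (fun _ => hg1 _) a b
    refine ⟨lm Λ ((i : ℝ) / (k : ℝ) ^ 3) * lm Λ ((j : ℝ) / (k : ℝ) ^ 3) * c,
      (hc.const_mul _).congr' ((eventually_gt_atTop 0).mono fun T hT => ?_)⟩
    rw [← Sm_ch hA _ hT ga gb, ← Sm_mul]
    apply Sm_congr
    intro p _
    simp only [hX, hW]
    have e1 : ρ * ((i : ℝ) / (k : ℝ) ^ 3 * ((j : ℝ) / (k : ℝ) ^ 3)) * σ p =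
      ρ * σ p * ((i : ℝ) / (k : ℝ) ^ 3 * ((j : ℝ) / (k : ℝ) ^ 3)) := by ring
    rw [e1]
    ring
  obtain ⟨c, hc⟩ := step h0p h1p hA hM X hXc
  push_cast at hc
  refine ⟨_, c, hc, ?_⟩
  have E0 := err h0p hA hC hD hcnt hW0 hWD hcW hΛ hk1'
  have E1 := err h1p hA' hC hD hcnt hW0 hWD hcW' hΛ hk1'
  filter_upwards [E0, E1, eventually_ge_atTop 1] with T hE0 hE1 hT1
  have hT0 : 0 < T := by linarith
  rw [← Sm_sub]
  refine (Sm_abs A e _ hT0).trans ?_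
  set a0 : Y → ℝ := fun p => |lm Λ (h0 p / T) -
      lm Λ ((⌈(k : ℝ) ^ 3 * (h0 p / T)⌉₊ : ℝ) / (k : ℝ) ^ 3)| with ha0
  set a1 : Y → ℝ := fun p => |lm Λ (h1 p / T) -
      lm Λ ((⌈(k : ℝ) ^ 3 * (h1 p / T)⌉₊ : ℝ) / (k : ℝ) ^ 3)| with ha1
  have hpt : ∀ p ∈ A T, |lm Λ (h0 p / T) * lm Λ (h1 p / T) *
      g (ρ * σ p * (h0 p / T * (h1 p / T))) * (σ p ^ 2 * F p) -
      X ⌈(k : ℝ) ^ 3 * (h0 p / T)⌉₊ ⌈(k : ℝ) ^ 3 * (h1 p / T)⌉₊ p| ≤
      C * (a0 p * W p) + (C * (a1 p * W p) + (C ^ 2 * (2 * Γ * ρ * C) / k) * W p) := by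
    intro p hp
    have hp' := (hA T p).1 hp
    have ci : ∀ u : ℝ, 0 < u → u ≤ 1 → 0 < (⌈(k : ℝ) ^ 3 * u⌉₊ : ℝ) / (k : ℝ) ^ 3 ∧
        (⌈(k : ℝ) ^ 3 * u⌉₊ : ℝ) / (k : ℝ) ^ 3 ≤ 1 ∧
        u ≤ (⌈(k : ℝ) ^ 3 * u⌉₊ : ℝ) / (k : ℝ) ^ 3 ∧
        (⌈(k : ℝ) ^ 3 * u⌉₊ : ℝ) / (k : ℝ) ^ 3 ≤ u + 1 / (k : ℝ) ^ 3 := by
      intro u hu hu1
      have b1 : 0 < ⌈(k : ℝ) ^ 3 * u⌉₊ := Nat.ceil_pos.2 (by positivity)
      have b2 : ⌈(k : ℝ) ^ 3 * u⌉₊ ≤ k ^ 3 := by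
        rw [Nat.ceil_le]
        push_cast
        nlinarith
      have b1' : (0 : ℝ) < ⌈(k : ℝ) ^ 3 * u⌉₊ := by exact_mod_cast b1
      have b2' : (⌈(k : ℝ) ^ 3 * u⌉₊ : ℝ) ≤ (k : ℝ) ^ 3 := by exact_mod_cast b2
      refine ⟨by positivity, (div_le_one hM0).2 b2', ?_, ?_⟩
      · rw [le_div_iff₀ hM0, mul_comm]
        exact Nat.le_ceil _
      · rw [div_le_iff₀ hM0]
        have h := (Nat.ceil_lt_add_one (show 0 ≤ (k : ℝ) ^ 3 * u by positivity)).le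
        have e1 : (u + 1 / (k : ℝ) ^ 3) * (k : ℝ) ^ 3 = (k : ℝ) ^ 3 * u + 1 := by field_simp
        rw [e1]
        exact h
    have p0 := h0p p
    have p1 := h1p p
    have u0 : 0 < h0 p / T := by positivity
    have u1 : 0 < h1 p / T := by positivity
    have u0' : h0 p / T ≤ 1 := (div_le_one hT0).2 hp'.1
    have u1' : h1 p / T ≤ 1 := (div_le_one hT0).2 hp'.2
    obtain ⟨A1, A2, A3, A4⟩ := ci _ u0 u0'
    obtain ⟨B1, B2, B3, B4⟩ := ci _ u1 u1'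
    simp only [hX, ha0, ha1]
    set x := lm Λ (h0 p / T) with hx
    set x' := lm Λ (h1 p / T) with hx'
    set ia := (⌈(k : ℝ) ^ 3 * (h0 p / T)⌉₊ : ℝ) / (k : ℝ) ^ 3 with hia
    set ib := (⌈(k : ℝ) ^ 3 * (h1 p / T)⌉₊ : ℝ) / (k : ℝ) ^ 3 with hib
    have x1 : lm Λ (h1 p / T) ≤ C := (lm_le hΛ u1 u1').trans (by nlinarith)
    have x2 : lm Λ ia ≤ C := (lm_le hΛ A1 A2).trans (by nlinarith)
    have x3 : lm Λ ib ≤ C := (lm_le hΛ B1 B2).trans (by nlinarith)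
    have y1 := lm_nonneg hΛ (h1 p / T)
    have y2 := lm_nonneg hΛ ia
    have y3 := lm_nonneg hΛ ib
    set G := g (ρ * σ p * (h0 p / T * (h1 p / T))) with hG
    set G' := g (ρ * σ p * (ia * ib)) with hG'
    have g0 : 0 ≤ G := hg0 _
    have g1 : G ≤ 1 := hg1 _
    have s0 := (hσ p).1
    have s1 := (hσ p).2
    have gg : |G - G'| ≤ 2 * Γ * ρ * C / k := by
      refine (hg _ _).trans ?_
      have z1 : ρ * σ p * (h0 p / T * (h1 p / T)) - ρ * σ p * (ia * ib) =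
        -(ρ * σ p * (ia * (ib - h1 p / T) + h1 p / T * (ia - h0 p / T))) := by ring
      rw [z1, abs_neg, abs_mul, abs_of_nonneg (show 0 ≤ ρ * σ p by positivity)]
      have z2 : ia * (ib - h1 p / T) ≤ 1 * (1 / (k : ℝ) ^ 3) := by
        apply mul_le_mul A2 (by linarith) (by linarith) zero_le_one
      have z3 : h1 p / T * (ia - h0 p / T) ≤ 1 * (1 / (k : ℝ) ^ 3) := by
        apply mul_le_mul u1' (by linarith) (by linarith) zero_le_one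
      have z4 : 0 ≤ ia * (ib - h1 p / T) := mul_nonneg A1.le (by linarith)
      have z5 : 0 ≤ h1 p / T * (ia - h0 p / T) := mul_nonneg u1.le (by linarith)
      have z6 : 1 / (k : ℝ) ^ 3 ≤ 1 / k := by
        gcongr
        calc (k : ℝ) = k ^ 1 := by ring
          _ ≤ (k : ℝ) ^ 3 := pow_le_pow_right₀ hk1 (by norm_num)
      rw [abs_of_nonneg (by linarith)]
      calc Γ * (ρ * σ p * (ia * (ib - h1 p / T) + h1 p / T * (ia - h0 p / T)))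
          ≤ Γ * (ρ * C * (2 * (1 / k))) := by
            gcongr
            linarith
        _ = 2 * Γ * ρ * C / k := by ring
    have e1 : x * x' * G * (σ p ^ 2 * F p) - lm Λ ia * lm Λ ib * G' * W p =
        ((x - lm Λ ia) * (x' * G) + lm Λ ia * ((x' - lm Λ ib) * G) +
          lm Λ ia * lm Λ ib * (G - G')) * W p := by
      simp only [hW]
      ring
    rw [e1, abs_mul, abs_of_nonneg (hW0 p)]
    have e2 : |(x - lm Λ ia) * (x' * G) + lm Λ ia * ((x' - lm Λ ib) * G) +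
          lm Λ ia * lm Λ ib * (G - G')| ≤ C * |x - lm Λ ia| + C * |x' - lm Λ ib| +
            C ^ 2 * (2 * Γ * ρ * C) / k := by
      refine (abs_add_le _ _).trans (add_le_add ((abs_add_le _ _).trans (add_le_add ?_ ?_)) ?_)
      · rw [abs_mul, mul_comm]
        refine mul_le_mul_of_nonneg_right ?_ (abs_nonneg _)
        rw [abs_of_nonneg (mul_nonneg y1 g0)]
        calc x' * G ≤ C * 1 := by gcongr
          _ = C := by ring
      · rw [abs_mul, abs_mul, abs_of_nonneg y2, abs_of_nonneg g0]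
        have := abs_nonneg (x' - lm Λ ib)
        calc lm Λ ia * (|x' - lm Λ ib| * G) ≤ C * (|x' - lm Λ ib| * 1) := by gcongr
          _ = C * |x' - lm Λ ib| := by ring
      · rw [abs_mul, abs_of_nonneg (mul_nonneg y2 y3)]
        calc lm Λ ia * lm Λ ib * |G - G'| ≤ C * C * (2 * Γ * ρ * C / k) := by gcongr
          _ = C ^ 2 * (2 * Γ * ρ * C) / k := by ring
    calc _ ≤ _ := mul_le_mul_of_nonneg_right e2 (hW0 p)
      _ = _ := by ring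
  have e3 := Sm_mono A e (fun T p => |lm Λ (h0 p / T) * lm Λ (h1 p / T) *
      g (ρ * σ p * (h0 p / T * (h1 p / T))) * (σ p ^ 2 * F p) -
      X ⌈(k : ℝ) ^ 3 * (h0 p / T)⌉₊ ⌈(k : ℝ) ^ 3 * (h1 p / T)⌉₊ p|)
      (fun _ p => C * (a0 p * W p) + (C * (a1 p * W p) + (C ^ 2 * (2 * Γ * ρ * C) / k) * W p))
      hT0 hpt
  refine e3.trans ?_
  rw [Sm_add A e (fun _ p => C * (a0 p * W p)), Sm_add A e (fun _ p => C * (a1 p * W p)),
    Sm_mul A e _ (fun _ p => a0 p * W p), Sm_mul A e _ (fun _ p => a1 p * W p),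
    Sm_mul A e _ (fun _ p => W p)]
  have e4 : Sm A e (fun _ p => W p) T ≤ C * C ^ 3 :=
    (Sm_mono A e _ (fun _ _ => C ^ 3) hT0 fun p _ => hWD p).trans
      (Sm_const A e C (C ^ 3) hD hT0 (hcnt T hT1))
  have e5 : Sm A e (fun _ p => a0 p * W p) T ≤
      (2 * C * (C * C ^ 3) + e * C ^ 2 * C ^ 3 + 1) / k := hE0
  have e6 : Sm A e (fun _ p => a1 p * W p) T ≤
      (2 * C * (C * C ^ 3) + e * C ^ 2 * C ^ 3 + 1) / k := hE1
  have e7 : C * Sm A e (fun _ p => a0 p * W p) T ≤ B / k := by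
    rw [hB, mul_div_assoc]
    gcongr
  have e8 : C * Sm A e (fun _ p => a1 p * W p) T ≤ B / k := by
    rw [hB, mul_div_assoc]
    gcongr
  have e9 : C ^ 2 * (2 * Γ * ρ * C) / k * Sm A e (fun _ p => W p) T ≤ B' / k := by
    rw [hB', div_mul_eq_mul_div]
    gcongr
  have e10 : (2 * B + B') / k = B / k + (B / k + B' / k) := by ring
  linarith

end

/-- GM-22 (INT). -/
theorem int : S_INT := by
  classical
  intro Y h0 h1 ψ F ψz Λ r C hC h0p h1p hfin hcnt hcntz hψ0 hψz hψe hF hΛ hlim ρ g hρ hgL hg0 hg1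
  obtain ⟨Γ, hg⟩ := hgL
  set A : ℝ → Finset Y := fun T => (hfin T).toFinset with hAdef
  have hA : ∀ T p, p ∈ A T ↔ h0 p ≤ T ∧ h1 p ≤ T := by
    intro T p
    simp [hAdef]
  have hcard : ∀ T : ℝ, 1 ≤ T → ((A T).card : ℝ) ≤ C * T ^ (2 * r) := by
    intro T hT
    have := hcnt T hT
    rwa [Set.ncard_eq_toFinset_card _ (hfin T)] at this
  have heq : ∀ (s : Y → ℝ) (T : ℝ), (∑ p ∈ A T, lm Λ (h0 p / T) * lm Λ (h1 p / T) *
      g (ρ * s p * (h0 p / T * (h1 p / T))) * (s p ^ 2 * F p)) = ∑ p ∈ A T,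
      Λ (T / h0 p) * Λ (T / h1 p) * (s p * (h0 p * h1 p) / T ^ 2) ^ 2 *
            g (ρ * (s p * (h0 p * h1 p) / T ^ 2)) * F p := by
    intro s T
    refine Finset.sum_congr rfl fun p hp => ?_
    have hp' := (hA T p).1 hp
    have p0 := h0p p
    have hT0 : 0 < T := by linarith [hp'.1]
    unfold lm
    rw [inv_div, inv_div]
    have e1 : ρ * s p * (h0 p / T * (h1 p / T)) = ρ * (s p * (h0 p * h1 p) / T ^ 2) := by
      field_simp
    rw [e1]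
    have e2 : s p * (h0 p * h1 p) / T ^ 2 = s p * (h0 p / T) * (h1 p / T) := by
      field_simp
    rw [e2]
    ring
  have hgoal : ∀ T : ℝ, (∑ᶠ p ∈ {p : Y | h0 p ≤ T ∧ h1 p ≤ T},
          Λ (T / h0 p) * Λ (T / h1 p) * (ψ p * (h0 p * h1 p) / T ^ 2) ^ 2 *
            g (ρ * (ψ p * (h0 p * h1 p) / T ^ 2)) * F p) / T ^ (2 * r) =
      Sm A (2 * r) (fun T p => lm Λ (h0 p / T) * lm Λ (h1 p / T) *
      g (ρ * ψ p * (h0 p / T * (h1 p / T))) * (ψ p ^ 2 * F p)) T := by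
    intro T
    rw [finsum_mem_eq_finite_toFinset_sum _ (hfin T)]
    unfold Sm
    rw [heq ψ T]
  simp_rw [hgoal]
  apply conv_of_approx
  intro ε hε
  obtain ⟨z, hz⟩ := exists_nat_ge (max 1 (C ^ 6 / ε))
  have hz1 : (1 : ℝ) ≤ z := (le_max_left _ _).trans hz
  have hz1' : 1 ≤ z := by exact_mod_cast hz1
  have hz0 : (0 : ℝ) < z := by linarith
  have hzε : C ^ 6 / z ≤ ε := by
    rw [div_le_iff₀ hz0]
    have := (div_le_iff₀ hε).1 ((le_max_right _ _).trans hz)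
    linarith
  have hσ : ∀ p, 0 ≤ ψz z p ∧ ψz z p ≤ C := fun p =>
    ⟨(hψ0 p).trans (hψz z p hz1').1, (hψz z p hz1').2⟩
  obtain ⟨c, hc⟩ := lim_z h0p h1p hA hC hcard hΛ hσ hF (fun G α β hG hG0 hG1 a b =>
    hlim z G α β hz1' hG hG0 hG1 a b) hρ hg hg0 hg1
  refine ⟨_, c, hc, ?_⟩
  filter_upwards [eventually_ge_atTop 1] with T hT1
  have hT0 : 0 < T := by linarith
  rw [← Sm_sub]
  refine (Sm_abs A (2 * r) _ hT0).trans ?_
  have hbd : ∀ (s : ℝ) (p : Y), p ∈ A T → 0 ≤ s → s ≤ C →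
      0 ≤ lm Λ (h0 p / T) * lm Λ (h1 p / T) * g (ρ * s * (h0 p / T * (h1 p / T))) * (s ^ 2 * F p) ∧
      lm Λ (h0 p / T) * lm Λ (h1 p / T) * g (ρ * s * (h0 p / T * (h1 p / T))) * (s ^ 2 * F p) ≤
        C ^ 5 := by
    intro s p hp hs0 hs1
    have hp' := (hA T p).1 hp
    have p0 := h0p p
    have p1 := h1p p
    have u0 : 0 < h0 p / T := by positivity
    have u1 : 0 < h1 p / T := by positivity
    have u0' : h0 p / T ≤ 1 := (div_le_one hT0).2 hp'.1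
    have u1' : h1 p / T ≤ 1 := (div_le_one hT0).2 hp'.2
    have x0 : lm Λ (h0 p / T) ≤ C := (lm_le hΛ u0 u0').trans (by nlinarith)
    have x1 : lm Λ (h1 p / T) ≤ C := (lm_le hΛ u1 u1').trans (by nlinarith)
    have y0 := lm_nonneg hΛ (h0 p / T)
    have y1 := lm_nonneg hΛ (h1 p / T)
    have g0 := hg0 (ρ * s * (h0 p / T * (h1 p / T)))
    have g1 := hg1 (ρ * s * (h0 p / T * (h1 p / T)))
    have f0 := (hF p).1
    have f1 := (hF p).2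
    refine ⟨by positivity, ?_⟩
    calc _ ≤ C * C * 1 * (C ^ 2 * C) := by gcongr
      _ = C ^ 5 := by ring
  have hpt : ∀ p ∈ A T, |lm Λ (h0 p / T) * lm Λ (h1 p / T) *
      g (ρ * ψ p * (h0 p / T * (h1 p / T))) * (ψ p ^ 2 * F p) -
      lm Λ (h0 p / T) * lm Λ (h1 p / T) *
      g (ρ * ψz z p * (h0 p / T * (h1 p / T))) * (ψz z p ^ 2 * F p)| ≤
      if ψ p < 1 / (z : ℝ) then C ^ 5 else 0 := by
    intro p hp
    split_ifs with h
    · have a1 := hbd (ψ p) p hp (hψ0 p) ((hψz z p hz1').1.trans (hψz z p hz1').2)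
      have a2 := hbd (ψz z p) p hp (hσ p).1 (hσ p).2
      rw [abs_le]
      constructor <;> linarith [a1.1, a1.2, a2.1, a2.2]
    · rw [hψe z p hz1' (not_lt.1 h), sub_self, abs_zero]
  have e3 := Sm_mono A (2 * r) (fun T p => |lm Λ (h0 p / T) * lm Λ (h1 p / T) *
      g (ρ * ψ p * (h0 p / T * (h1 p / T))) * (ψ p ^ 2 * F p) -
      lm Λ (h0 p / T) * lm Λ (h1 p / T) *
      g (ρ * ψz z p * (h0 p / T * (h1 p / T))) * (ψz z p ^ 2 * F p)|)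
      (fun _ p => if ψ p < 1 / (z : ℝ) then C ^ 5 else 0) hT0 hpt
  refine e3.trans (le_trans ?_ hzε)
  unfold Sm
  rw [← Finset.sum_filter, Finset.sum_const, nsmul_eq_mul, div_le_iff₀ (by positivity)]
  have e4 : ((((A T).filter fun p => ψ p < 1 / (z : ℝ)).card : ℕ) : ℝ) ≤
      C / z * T ^ (2 * r) := by
    refine le_trans (le_of_eq ?_) (hcntz z T hz1' hT1)
    rw [← Set.ncard_coe_finset]
    congr 2
    ext p
    simp only [Finset.coe_filter, Set.mem_ofPred_eq, hA, and_assoc]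
  calc _ ≤ C / z * T ^ (2 * r) * C ^ 5 := by gcongr
    _ = C ^ 6 / z * T ^ (2 * r) := by ring

end Pool.Agent.Q149.GM
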